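import Pool.Agent.H454R3.Roy

/-!
# Codes with a parameter, and spaces which are countable unions of submetrizable subspaces
-/

set_option autoImplicit false

namespace Pool.Agent.Y458.RH

open Pool.Agent.H454R3.EDeg Pool.Agent.H454R3.Mono Pool.Agent.H454R3.Roy
open Pool.Agent.Helper446
open Pt

/-- **Key fact**, for countable unions of submetrizable subspaces and countably many ways to code
the points. -/
theorem key2 (code : (ℕ → Pt) → Set ℕ)
    (code_near : ∀ {x w : ℕ → Pt} {q m : ℕ}, q ∈ code x → q < m →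
      (∀ i < m, Near m (x i) (w i)) → q ∈ code w)
    (code_ne : ∀ {x y : ℕ → Pt} {i : ℕ}, x i = o false → y i = o true → code x ≠ code y)
    (Y : Type*) [TopologicalSpace Y] (P : ℕ → Set Y) (hP : ∀ y, ∃ k, y ∈ P k)
    (hY : ∀ k, Submetrizable (P k)) (U : ℕ → Set Y)
    (hU : TopologicalSpace.IsTopologicalBasis (Set.range U)) (N : ℕ → Y → Set ℕ)
    (hN : ∀ b a, ∃ a', ∀ y, y ∈ U a ↔ a' ∈ N b y) :
    ∃ w : ℕ → Pt, ∀ y b, ¬ EEqv (N b y) (code w) := by
  classical
  by_contra hcon
  push Not at hcon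
  let X : ℕ → Set (ℕ → Pt) := fun n => {w | ∃ y : Y, y ∈ P n.unpair.2.unpair.1 ∧
    N n.unpair.2.unpair.2 y = app (Op n.unpair.1.unpair.1) (code w) ∧
    code w = app (Op n.unpair.1.unpair.2) (N n.unpair.2.unpair.2 y)}
  have hX : ∀ w, ∃ n, w ∈ X n := by
    intro w
    obtain ⟨y, b, hy1, hy2⟩ := hcon w
    obtain ⟨i, hi⟩ := ered_iff.1 hy1
    obtain ⟨j, hj⟩ := ered_iff.1 hy2
    obtain ⟨k, hk⟩ := hP y
    refine ⟨Nat.pair (Nat.pair i j) (Nat.pair k b), y, ?_, ?_, ?_⟩
    · simp only [Nat.unpair_pair]; exact hk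
    · simp only [Nat.unpair_pair]; exact hi
    · simp only [Nat.unpair_pair]; exact hj
  obtain ⟨n, y0, k, hdn, x, hx, x', hx', hk, hk', hne, hrel⟩ :=
    mono (o1 := o false) (o2 := o true) (by simp) X hX
  obtain ⟨d, hd0, hdd, hdt, hds, hdo⟩ := exists_dist' (P n.unpair.2.unpair.1) (hY _)
  -- the point of the space coded by a member of `X n`
  have hpt : ∀ w, ∃ y : P n.unpair.2.unpair.1, w ∈ X n →
      (N n.unpair.2.unpair.2 y.1 = app (Op n.unpair.1.unpair.1) (code w) ∧
      code w = app (Op n.unpair.1.unpair.2) (N n.unpair.2.unpair.2 y.1)) := by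
    intro w
    by_cases h : w ∈ X n
    · obtain ⟨y, hyP, hy⟩ := h
      exact ⟨⟨y, hyP⟩, fun _ => hy⟩
    · obtain ⟨y, hyP, -⟩ := hx
      exact ⟨⟨y, hyP⟩, fun h' => absurd h' h⟩
  choose pt hpt using hpt
  have hG : ContOn (X n) fun w => d (pt x) (pt w) := by
    intro w hw δ hδ
    obtain ⟨O, hO, hOeq⟩ := isOpen_induced_iff.1 (hdo (pt w) δ)
    have hmem : (pt w).1 ∈ O := by
      have h1 : pt w ∈ Subtype.val ⁻¹' O := by
        rw [hOeq]
        show d (pt w) (pt w) < δ
        rw [hdd]; exact hδ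
      exact h1
    obtain ⟨_, ⟨a, rfl⟩, ha1, ha2⟩ := hU.exists_subset_of_mem_open hmem hO
    obtain ⟨a', ha'⟩ := hN n.unpair.2.unpair.2 a
    have h1 : a' ∈ app (Op n.unpair.1.unpair.1) (code w) := by
      rw [← (hpt w hw).1]; exact (ha' _).1 ha1
    obtain ⟨u, hu1, hu2⟩ := h1
    refine ⟨u, fun m hm w' hw' hNr => ?_⟩
    have h2 : a' ∈ N n.unpair.2.unpair.2 (pt w').1 := by
      rw [(hpt w' hw').1]
      exact ⟨u, hu1, fun q hq => code_near (hu2 hq) (by have := D_bound hq; omega) hNr⟩
    have h3 : d (pt w') (pt w) < δ := by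
      have h4 : pt w' ∈ Subtype.val ⁻¹' O := ha2 ((ha' _).2 h2)
      rw [hOeq] at h4
      exact h4
    have h4 := hdt (pt x) (pt w) (pt w')
    have h5 := hdt (pt x) (pt w') (pt w)
    have h6 := hds (pt w) (pt w')
    rw [abs_lt]
    constructor <;> linarith
  have h1 := chain hdn hG hx hx' hk hk' hrel
  have h2 : d (pt x) (pt x') = 0 := by
    have h3 : d (pt x) (pt x) = d (pt x) (pt x') := h1
    rw [← h3]; exact hdd _
  have h3 : pt x = pt x' := hd0 _ _ h2
  have h4 : code x = code x' := by rw [(hpt x hx).2, (hpt x' hx').2, h3]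
  obtain ⟨i, hi⟩ := Function.ne_iff.1 hne
  rcases hrel i with h5 | ⟨h5, h6⟩ | ⟨h5, h6⟩
  · exact hi h5
  · exact code_ne h5 h6 h4
  · exact code_ne h6 h5 h4.symm

/-! ### Codes with a parameter -/

/-- the events together with a parameter -/
def Z (C : Set ℕ) (w : ℕ → Pt) : Set ℕ := join (ZZ w) C

/-- the code of a sequence of points with a parameter -/
def codeC (C : Set ℕ) (w : ℕ → Pt) : Set ℕ :=
  join (join (Z C w) (Z C w)ᶜ) (HalfGraphPlus fun n => val (w n))

theorem Z_near {C : Set ℕ} {x w : ℕ → Pt} {m n : ℕ} (hn : n < m)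
    (h : ∀ i < m, Near m (x i) (w i)) : n ∈ Z C x ↔ n ∈ Z C w := by
  rcases Nat.even_or_odd' n with ⟨p, rfl | rfl⟩
  · have h1 := Nat.unpair_left_le p
    have h2 := Nat.unpair_right_le p
    have h3 : p ∈ ZZ x ↔ p ∈ ZZ w := (h p.unpair.1 (by omega)).1 p.unpair.2 (by omega)
    exact join_even.trans (h3.trans join_even.symm)
  · exact join_odd.trans join_odd.symm

theorem codeC_near {C : Set ℕ} {x w : ℕ → Pt} {q m : ℕ} (hq : q ∈ codeC C x) (hqm : q < m)
    (h : ∀ i < m, Near m (x i) (w i)) : q ∈ codeC C w := by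
  rcases hq with ⟨q1, hq1, rfl⟩ | ⟨q1, hq1, rfl⟩
  · refine join_even.2 ?_
    rcases hq1 with ⟨n, hn, rfl⟩ | ⟨n, hn, rfl⟩
    · exact join_even.2 ((Z_near (by omega) h).1 hn)
    · exact join_odd.2 (fun hc => hn ((Z_near (by omega) h).2 hc))
  · refine join_odd.2 ?_
    rcases hq1 with ⟨n, k, rfl, hn⟩ | ⟨n, k, rfl, hn⟩
    · have h1 := Nat.left_le_pair n k
      have h2 := Nat.right_le_pair n k
      exact hgp_even.2 (((h n (by omega)).2 k (by omega)).1 hn)
    · have h1 := Nat.left_le_pair n k
      have h2 := Nat.right_le_pair n k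
      exact hgp_odd.2 (((h n (by omega)).2 k (by omega)).2 hn)

theorem codeC_ne {C : Set ℕ} {x y : ℕ → Pt} {i : ℕ} (h1 : x i = o false) (h2 : y i = o true) :
    codeC C x ≠ codeC C y := by
  intro h
  have h3 : 2 * (2 * Nat.pair i 0) + 1 ∈ codeC C x := by
    refine join_odd.2 (hgp_even.2 ?_)
    rw [h1]; exact Or.inl rfl
  rw [h] at h3
  have h4 := hgp_even.1 (join_odd.1 h3)
  rw [h2] at h4
  rcases h4 with h4 | ⟨k, h4, -⟩ <;> simp [val] at h4

/-! ### The codes are Roy halfgraph-above -/

theorem cdiv2 : Computable fun z : ℕ => z / 2 :=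
  Primrec.nat_div.to_comp.comp Computable.id (Computable.const 2)

theorem cmod2 : Computable fun z : ℕ => z % 2 :=
  Primrec.nat_mod.to_comp.comp Computable.id (Computable.const 2)

/-- Search for the least `m` with `q n m ∈ X`. -/
theorem partIn_search {X : Set ℕ} {q : ℕ → ℕ → ℕ} (hq : Computable₂ q) {h : ℕ → ℕ}
    (hh : Computable h) : ∃ g : ℕ →. ℕ, PartIn X g ∧
      ∀ n m, q n m ∈ X → (∀ k < m, q n k ∉ X) → h m ∈ g n := by
  have hq' : Computable fun p : ℕ => q p.unpair.1 p.unpair.2 :=
    Computable₂.comp (f := q) hq (g := fun p : ℕ => p.unpair.1)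
      (h := fun p : ℕ => p.unpair.2) (by fun_prop) (by fun_prop)
  have h1 : Oracle.TotIn X fun p : ℕ => 1 - Defs.chiN X (q p.unpair.1 p.unpair.2) :=
    (Oracle.TotIn.of_comp (A := X) (f := fun n : ℕ => 1 - n) (by fun_prop)).comp
      (Oracle.TotIn.chi.comp (Oracle.TotIn.of_comp hq'))
  have h2 := Nat.RecursiveIn.rfind h1
  have h3 := Nat.RecursiveIn.comp (Oracle.TotIn.of_comp (A := X) hh) h2
  obtain ⟨g, hg, hg'⟩ : ∃ g : ℕ →. ℕ, Nat.RecursiveIn {Defs.chi X} g ∧
      ∀ n m, q n m ∈ X → (∀ k < m, q n k ∉ X) → h m ∈ g n := by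
    refine ⟨_, h3, fun n m hm hk => ?_⟩
    refine Part.mem_bind_iff.2 ⟨m, Nat.mem_rfind.2 ⟨?_, ?_⟩, Part.mem_some _⟩
    · simp only [Part.map_eq_map, Part.map_some, Part.mem_some_iff, Nat.unpair_pair]
      rw [Oracle.chiN_eq_one.2 hm]; simp
    · intro k hk'
      simp only [Part.map_eq_map, Part.map_some, Part.mem_some_iff, Nat.unpair_pair]
      rw [Oracle.chiN_eq_zero.2 (hk k hk')]; simp
  refine ⟨g, ?_, hg'⟩
  unfold PartIn
  rw [chi_eq, RecursiveIn.iff_nat]
  exact hg

theorem roy_parts (w : ℕ → Pt) : CEIn (ZZ w) (HalfGraph fun n => val (w n)) ∧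
    ∃ g : ℕ →. ℕ, PartIn (ZZ w) g ∧ ∀ n k, val (w n) = Tl.fin k → ∃ b ∈ g n, k < b := by
  refine ⟨?_, ?_⟩
  · refine ceIn_of_proj (q := fun z t =>
      if z % 2 = 0 then Nat.pair (z / 2).unpair.1 (Nat.pair 1 (Nat.pair (z / 2).unpair.2 t))
      else if (z / 2).unpair.2 = 0 then Nat.pair (z / 2).unpair.1 (Nat.pair 0 t)
      else Nat.pair (z / 2).unpair.1 (Nat.pair ((z / 2).unpair.2 + 1) t)) ?_ ?_
    · have h1 : Computable fun z : ℕ × ℕ => (z.1 / 2).unpair := by
        exact Computable.unpair.comp (cdiv2.comp Computable.fst)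
      have h2 : Computable fun z : ℕ × ℕ => (z.1 / 2).unpair.1 := Computable.fst.comp h1
      have h3 : Computable fun z : ℕ × ℕ => (z.1 / 2).unpair.2 := Computable.snd.comp h1
      refine RE.cite (α := ℕ × ℕ) (RE.cp_eq (cmod2.comp Computable.fst) (Computable.const 0)) ?_ ?_
      · fun_prop
      · exact RE.cite (RE.cp_eq h3 (Computable.const 0)) (by fun_prop) (by fun_prop)
    · intro z
      rcases Nat.even_or_odd' z with ⟨p, rfl | rfl⟩
      · have e1 : 2 * p % 2 = 0 := by omega
        have e2 : 2 * p / 2 = p := by omega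
        simp only [e1, if_true, e2, ZZ, Set.mem_ofPred_eq, Nat.unpair_pair]
        have e3 : p = Nat.pair p.unpair.1 p.unpair.2 := (Nat.pair_unpair p).symm
        constructor
        · rintro (⟨n, m, h, h1⟩ | ⟨n, m, h, h1⟩)
          · have h2 : p = Nat.pair n m := by omega
            rw [h2, Nat.unpair_pair]
            dsimp only at h1 ⊢
            rcases hw : w n with b | ⟨s, c, rs, ot⟩
            · rw [hw] at h1; cases b <;> simp [val] at h1
            · rw [hw] at h1
              rcases ot with _ | t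
              · simp only [val, Tl.fin.injEq] at h1; omega
              · simp only [val, Tl.fin.injEq] at h1
                refine ⟨t, Or.inr (Or.inl ⟨t, rfl, ?_⟩)⟩
                have : rs.length = m := by omega
                rw [this]
          · omega
        · rintro ⟨t, ht⟩
          refine Or.inl ⟨p.unpair.1, p.unpair.2, by rw [← e3], ?_⟩
          rcases hw : w p.unpair.1 with b | ⟨s, c, rs, ot⟩
          · rw [hw] at ht; exact ht.elim
          · rw [hw] at ht
            rcases ht with h | ⟨t', h, h'⟩ | ⟨j, r, h, h'⟩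
            · have := (Nat.pair_eq_pair.1 h).1; omega
            · have h3 := (Nat.pair_eq_pair.1 (Nat.pair_eq_pair.1 h').2).1
              show val (w p.unpair.1) = _
              rw [hw, h, h3]
              rfl
            · have := (Nat.pair_eq_pair.1 h').1; omega
      · have e1 : ¬ (2 * p + 1) % 2 = 0 := by omega
        have e2 : (2 * p + 1) / 2 = p := by omega
        simp only [e1, if_false, e2]
        have e3 : p = Nat.pair p.unpair.1 p.unpair.2 := (Nat.pair_unpair p).symm
        constructor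
        · rintro (⟨n, m, h, h1⟩ | ⟨n, m, h, k, h1, h1'⟩)
          · omega
          · have h2 : p = Nat.pair n m := by omega
            rw [h2, Nat.unpair_pair]
            dsimp only at h1 ⊢
            rcases hw : w n with b | ⟨s, c, rs, ot⟩
            · rw [hw] at h1; cases b <;> simp [val] at h1
            · rcases Nat.eq_zero_or_pos m with hm | hm
              · refine ⟨Nat.pair (rs.length + c) s, ?_⟩
                rw [if_pos hm]
                simp only [ZZ, Set.mem_ofPred_eq, Nat.unpair_pair, hw]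
                exact Or.inl rfl
              · have hlen : m ≤ rs.length := by
                  rw [hw] at h1
                  rcases ot with _ | t <;> simp only [val, Tl.fin.injEq] at h1 <;> omega
                have hlt : m - 1 < rs.length := by omega
                refine ⟨rs[m - 1], ?_⟩
                rw [if_neg (by omega)]
                simp only [ZZ, Set.mem_ofPred_eq, Nat.unpair_pair, hw]
                refine Or.inr (Or.inr ⟨m - 1, rs[m - 1], List.getElem?_eq_getElem hlt, ?_⟩)
                congr 1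
                omega
        · rintro ⟨t, ht⟩
          refine Or.inr ⟨p.unpair.1, p.unpair.2, by rw [← e3], ?_⟩
          by_cases hm : p.unpair.2 = 0
          · rw [if_pos hm] at ht
            simp only [ZZ, Set.mem_ofPred_eq, Nat.unpair_pair] at ht
            rcases hw : w p.unpair.1 with b | ⟨s, c, rs, ot⟩
            · rw [hw] at ht; exact ht.elim
            · dsimp only
              rw [hw]
              rcases ot with _ | t
              · exact ⟨_, rfl, by omega⟩
              · exact ⟨_, rfl, by omega⟩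
          · rw [if_neg hm] at ht
            simp only [ZZ, Set.mem_ofPred_eq, Nat.unpair_pair] at ht
            rcases hw : w p.unpair.1 with b | ⟨s, c, rs, ot⟩
            · rw [hw] at ht; exact ht.elim
            · rw [hw] at ht
              have hlen : p.unpair.2 ≤ rs.length := by
                rcases ht with h | ⟨t', h, h'⟩ | ⟨j, r, h, h'⟩
                · have := (Nat.pair_eq_pair.1 h).1; omega
                · have := (Nat.pair_eq_pair.1 h').1; omega
                · have h3 := (Nat.pair_eq_pair.1 h').1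
                  by_contra hc
                  rw [List.getElem?_eq_none (by omega)] at h
                  cases h
              dsimp only
              rw [hw]
              rcases ot with _ | t
              · exact ⟨_, rfl, by omega⟩
              · exact ⟨_, rfl, by omega⟩
  · obtain ⟨g, hg, hg'⟩ := partIn_search (X := ZZ w) (q := fun n m => Nat.pair n (Nat.pair 0 m))
      (h := fun m => 2 * m.unpair.1 + 2)
      (by show Computable fun z : ℕ × ℕ => Nat.pair z.1 (Nat.pair 0 z.2); fun_prop)
      (by fun_prop)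
    refine ⟨g, hg, fun n k hk => ?_⟩
    rcases hw : w n with b | ⟨s, c, rs, ot⟩
    · rw [hw] at hk; cases b <;> simp [val] at hk
    · have hev : ∀ m, Nat.pair n (Nat.pair 0 m) ∈ ZZ w ↔ m = Nat.pair (rs.length + c) s := by
        intro m
        simp only [ZZ, Set.mem_ofPred_eq, Nat.unpair_pair, hw]
        constructor
        · rintro (h | ⟨t', h, h'⟩ | ⟨j, r, h, h'⟩)
          · exact (Nat.pair_eq_pair.1 h).2
          · have := (Nat.pair_eq_pair.1 h').1; omega
          · have := (Nat.pair_eq_pair.1 h').1; omega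
        · rintro rfl
          exact Or.inl rfl
      refine ⟨_, hg' n (Nat.pair (rs.length + c) s) ((hev _).2 rfl) ?_, ?_⟩
      · intro m hm h
        have := (hev m).1 h
        omega
      · rw [hw] at hk
        rw [Nat.unpair_pair]
        rcases ot with _ | t <;> simp only [val, Tl.fin.injEq] at hk <;> omega

theorem partIn_join {X C : Set ℕ} {f : ℕ →. ℕ} (hf : PartIn X f) : PartIn (join X C) f := by
  refine RecursiveIn.subst hf ?_
  rintro g rfl
  have h1 : Oracle.TotIn (join X C) fun n => Defs.chiN (join X C) (2 * n) :=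
    (Oracle.TotIn.chi (A := join X C)).comp (Oracle.TotIn.of_comp
      (Primrec.nat_mul.to_comp.comp (Computable.const 2) Computable.id))
  rw [chi_eq, chi_eq, RecursiveIn.iff_nat]
  refine Nat.RecursiveIn.of_eq h1 (fun n => ?_)
  show Part.some (Defs.chiN (join X C) (2 * n)) = Part.some (Defs.chiN X n)
  congr 1
  by_cases h : n ∈ X
  · rw [Oracle.chiN_eq_one.2 h, Oracle.chiN_eq_one.2 (join_even.2 h)]
  · rw [Oracle.chiN_eq_zero.2 h, Oracle.chiN_eq_zero.2 (fun h' => h (join_even.1 h'))]

theorem ceIn_join {X C S : Set ℕ} (h : CEIn X S) : CEIn (join X C) S := by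
  obtain ⟨f, hf, hfS⟩ := h
  exact ⟨f, partIn_join hf, hfS⟩

/-! ### Reading off -/

theorem ered_of_comp {h : ℕ → ℕ} (hh : Computable h) (S : Set ℕ) : ERed {n | h n ∈ S} S := by
  refine ⟨{p | p.2 = 2 ^ h p.1}, ?_, ?_⟩
  · have h1 : Computable fun p : ℕ × ℕ => 2 ^ h p.1 :=
      ((Primrec₂.unpaired'.1 Nat.Primrec.pow).to_comp).comp (Computable.const 2)
        (hh.comp Computable.fst)
    exact RE.eq Computable.snd h1
  · ext n
    constructor
    · intro hn
      refine ⟨2 ^ h n, rfl, ?_⟩
      intro i hi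
      have h1 : (2 ^ h n).testBit i = true := hi
      rw [Nat.testBit_two_pow] at h1
      have h2 : h n = i := by simpa using h1
      rw [← h2]
      exact hn
    · rintro ⟨u, hu, hD⟩
      have hu' : u = 2 ^ h n := hu
      refine hD ?_
      show u.testBit (h n) = true
      rw [hu', Nat.testBit_two_pow]
      simp

theorem exists_unread (F : Set (Set ℕ)) (hF : Cardinal.mk F < Cardinal.continuum)
    (rd : Set ℕ → Set ℕ) : ∃ C : Set ℕ, ∀ B ∈ F, ∀ S, ERed S B → rd S ≠ C := by
  by_contra hcon
  push Not at hcon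
  have h1 : Function.Surjective fun p : ℕ × F => rd (app (Op p.1) p.2.1) := by
    intro C
    obtain ⟨B, hB, S, hS, hrd⟩ := hcon C
    obtain ⟨e, rfl⟩ := ered_iff.1 hS
    exact ⟨(e, ⟨B, hB⟩), hrd⟩
  have h2 := Cardinal.mk_le_of_surjective h1
  rw [Cardinal.mk_prod, Cardinal.lift_id, Cardinal.lift_id, Cardinal.mk_nat,
    Cardinal.mk_set, Cardinal.mk_nat, Cardinal.two_power_aleph0] at h2
  have h3 : Cardinal.aleph0 * Cardinal.mk F < Cardinal.continuum :=
    Cardinal.mul_lt_of_lt Cardinal.aleph0_le_continuum Cardinal.aleph0_lt_continuum hF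
  exact absurd h2 (not_le.2 h3)

end Pool.Agent.Y458.RH
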